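import Pool.Agent.W425.SG.Defs
import Pool.Agent.H628R4.TP.Weyl

set_option autoImplicit false

/-! Project SG, part G1: descent from `ℂ` to `ℚ[y]` (helper372). -/

namespace Pool.Agent.W372.SG

open MvPolynomial Pool.Agent.H628R4.TZ Pool.Agent.W425.SM Pool.Agent.W425.SL Pool.Agent.W425.SG
open Pool.Agent.H628R4.TP (weylS)

/-! ### The action of an operator on the coefficients -/

section Act

variable {N : ℕ}

/-- the exponent `e + δ` -/
noncomputable def ed (e : Fin N →₀ ℕ) (δ : Fin N → ℤ) : Fin N →₀ ℕ :=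
  Finsupp.equivFunOnFinite.symm fun i => ((e i : ℤ) + δ i).toNat

theorem ed_apply (e : Fin N →₀ ℕ) (δ : Fin N → ℤ) (i : Fin N) :
    ed e δ i = ((e i : ℤ) + δ i).toNat := rfl

theorem coeff_act (T : Module.End ℂ (MvPolynomial (Fin N) ℂ))
    (Q : (Fin N → ℤ) → MvPolynomial (Fin N) ℂ)
    (hQ : ∀ (u : Fin N → ℤ) (n n' : Fin N →₀ ℕ), (∀ i, (n i : ℤ) = n' i + u i) →
      coeff n' (T (monomial n 1)) =
        eval (fun i => (n i : ℂ)) (Q u) * ∏ i, ((n i).descFactorial (u i).toNat : ℂ))
    (D : Finset (Fin N → ℤ)) (hD : ∀ u, Q u ≠ 0 → u ∈ D) (g : MvPolynomial (Fin N) ℂ)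
    (e : Fin N →₀ ℕ) :
    coeff e (T g) = ∑ δ ∈ D, if ∀ i, 0 ≤ (e i : ℤ) + δ i then
      eval (fun i => ((((e i : ℤ) + δ i : ℤ)) : ℂ)) (Q δ) *
      ((∏ i, ((((e i : ℤ) + δ i).toNat.descFactorial (δ i).toNat : ℕ) : ℂ)) *
      coeff (ed e δ) g) else 0 := by
  classical
  induction g using MvPolynomial.induction_on' with
  | monomial n c =>
    set u : Fin N → ℤ := fun i => (n i : ℤ) - e i with hu
    have h1 : coeff e (T (monomial n c)) =
        c * (eval (fun i => (n i : ℂ)) (Q u) * ∏ i, ((n i).descFactorial (u i).toNat : ℂ)) := by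
      have h2 : (monomial n c : MvPolynomial (Fin N) ℂ) = c • monomial n 1 := by
        rw [smul_monomial, smul_eq_mul, mul_one]
      rw [h2, map_smul, coeff_smul, smul_eq_mul, hQ u n e (fun i => by rw [hu]; ring)]
    have h3 : ∀ i, (e i : ℤ) + u i = n i := fun i => by rw [hu]; ring
    have h4 : ed e u = n := by
      ext i
      rw [ed_apply, h3]
      simp
    rw [h1, Finset.sum_eq_single u]
    · rw [if_pos (fun i => by rw [h3]; positivity), h4, coeff_monomial, if_pos rfl]
      simp only [h3, Int.toNat_natCast, Int.cast_natCast]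
      ring
    · intro δ _ hδ
      split_ifs with hpos
      · rw [coeff_monomial, if_neg, mul_zero, mul_zero]
        intro hc
        apply hδ
        funext i
        have h5 : n i = ((e i : ℤ) + δ i).toNat := by
          rw [← ed_apply, ← hc]
        have h6 := hpos i
        rw [hu]
        simp only
        omega
      · rfl
    · intro huD
      have h5 : Q u = 0 := by
        by_contra hc
        exact huD (hD u hc)
      rw [h5]
      simp
  | add p q hp hq =>
    rw [map_add, coeff_add, hp, hq, ← Finset.sum_add_distrib]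
    refine Finset.sum_congr rfl fun δ _ => ?_
    split_ifs
    · rw [coeff_add]; ring
    · simp

end Act

/-! ### Retractions -/

section Retr

theorem retr {K L : Type} [Field K] [Field L] (ψ : K →+* L) :
    ∃ π : L →+ K, (∀ x y, π (ψ x * y) = x * π y) ∧ π 1 = 1 := by
  let := ψ.toAlgebra
  obtain ⟨g, hg⟩ := LinearMap.exists_leftInverse_of_injective (Algebra.linearMap K L)
    (LinearMap.ker_eq_bot.2 ψ.injective)
  refine ⟨g.toAddMonoidHom, fun x y => ?_, ?_⟩
  · have h1 : g (x • y) = x • g y := map_smul g x y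
    rw [Algebra.smul_def, smul_eq_mul] at h1
    exact h1
  · have h1 : g (algebraMap K L 1) = 1 := LinearMap.congr_fun hg 1
    rw [map_one] at h1
    exact h1

variable {K L σ : Type} [Field K] [Field L] [Fintype σ]

/-- apply an additive map to the coefficients -/
noncomputable def pm (π : L →+ K) (q : MvPolynomial σ L) : MvPolynomial σ K :=
  ∑ μ ∈ q.support, monomial μ (π (coeff μ q))

omit [Fintype σ] in
theorem coeff_pm (π : L →+ K) (q : MvPolynomial σ L) (γ : σ →₀ ℕ) :
    coeff γ (pm π q) = π (coeff γ q) := by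
  classical
  unfold pm
  rw [coeff_sum]
  simp only [coeff_monomial]
  rw [Finset.sum_ite_eq']
  split_ifs with h
  · rfl
  · rw [notMem_support_iff.1 h, map_zero]

theorem eval_pm (ψ : K →+* L) (π : L →+ K) (hπ : ∀ x y, π (ψ x * y) = x * π y)
    (q : MvPolynomial σ L) (k : σ → K) :
    eval k (pm π q) = π (eval (fun i => ψ (k i)) q) := by
  unfold pm
  rw [map_sum, eval_eq' (fun i => ψ (k i)) q, map_sum]
  refine Finset.sum_congr rfl fun μ _ => ?_
  rw [eval_monomial, Finsupp.prod_fintype _ _ (fun i => pow_zero _)]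
  have h1 : ∏ i, ψ (k i) ^ μ i = ψ (∏ i, k i ^ μ i) := by
    rw [map_prod]
    simp only [map_pow]
  rw [h1, mul_comm (coeff μ q), hπ, mul_comm]

omit [Fintype σ] in
theorem coeff_mul_pm (ψ : K →+* L) (π : L →+ K) (hπ : ∀ x y, π (ψ x * y) = x * π y)
    (q : MvPolynomial σ L) (g : MvPolynomial σ K) (e : σ →₀ ℕ) :
    π (coeff e (q * map ψ g)) = coeff e (pm π q * g) := by
  classical
  rw [coeff_mul, coeff_mul, map_sum]
  refine Finset.sum_congr rfl fun x _ => ?_
  rw [coeff_map, coeff_pm, mul_comm (coeff x.1 q), hπ, mul_comm]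

end Retr

/-! ### Clearing denominators -/

section Clear

attribute [local instance] MvPolynomial.algebraMvPolynomial

theorem clear_den {R K σ ι : Type} [CommRing R] [IsDomain R] [Field K] [Algebra R K]
    [IsFractionRing R K] (s : Finset ι) (p : ι → MvPolynomial σ K) :
    ∃ (d : R) (q : ι → MvPolynomial σ R), d ≠ 0 ∧
      ∀ i ∈ s, map (algebraMap R K) (q i) = C (algebraMap R K d) * p i := by
  classical
  obtain ⟨⟨b, hb⟩, h⟩ := IsLocalization.exist_integer_multiples
    ((nonZeroDivisors R).map (C (σ := σ))) s p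
  obtain ⟨d, hd, rfl⟩ := Submonoid.mem_map.1 hb
  have h' : ∀ i : ι, ∃ q : MvPolynomial σ R, i ∈ s →
      map (algebraMap R K) q = C (algebraMap R K d) * p i := by
    intro i
    by_cases hi : i ∈ s
    · obtain ⟨q, hq⟩ := h i hi
      refine ⟨q, fun _ => ?_⟩
      have h2 : algebraMap (MvPolynomial σ R) (MvPolynomial σ K) q =
          map (algebraMap R K) q := rfl
      rw [← h2, hq, Algebra.smul_def]
      congr 1
      exact map_C _ _
    · exact ⟨0, fun hc => absurd hc hi⟩
  choose q hq using h'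
  exact ⟨d, q, nonZeroDivisors.ne_zero hd, fun i hi => hq i hi⟩

end Clear

/-- **G1** -/
theorem taskG1 : TaskG1 := by
  classical
  intro r N loc v a b ha hU
  obtain ⟨A0, P, hA0, hA1, hfe⟩ := hU
  -- rings
  let R := MvPolynomial (Fin r) ℚ
  let K := FractionRing (MvPolynomial (Fin r) ℚ)
  let ι : MvPolynomial (Fin r) ℚ →+* K := algebraMap _ K
  have hι : Function.Injective ι := IsFractionRing.injective _ K
  let φ : MvPolynomial (Fin r) ℚ →+* ℂ := (aeval a : MvPolynomial (Fin r) ℚ →ₐ[ℚ] ℂ).toRingHom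
  have hφ : Function.Injective φ := ha
  let ψ : K →+* ℂ := IsFractionRing.lift hφ
  have hψ : ∀ x, ψ (ι x) = φ x := fun x => IsFractionRing.lift_algebraMap hφ x
  obtain ⟨π, hπ, hπ1⟩ := retr ψ
  -- the action
  choose Q0 hQf hQ using fun (T : weylS (Fin N)) =>
    Pool.Agent.H628R4.TP.act_weyl (T : Module.End ℂ (MvPolynomial (Fin N) ℂ)) T.2
  set D : Finset (Fin N → ℤ) := P.support.biUnion fun m => (hQf (P m)).toFinset with hD
  have hD' : ∀ m ∈ P.support, ∀ u, Q0 (P m) u ≠ 0 → u ∈ D := by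
    intro m hm u hu
    rw [hD, Finset.mem_biUnion]
    exact ⟨m, hm, (Set.Finite.mem_toFinset _).2 hu⟩
  have hsp : ∀ s : ℕ, sparse v a ^ s = map ψ (map ι (gen v ^ s)) := by
    intro s
    rw [map_map, map_pow]
    congr 1
    unfold sparse gen
    rw [map_sum]
    refine Finset.sum_congr rfl fun j _ => ?_
    rw [map_mul, map_C, map_prod]
    congr 1
    · congr 1
      show a j = ψ (ι (X j))
      rw [hψ]
      exact (aeval_X a j).symm
    · refine Finset.prod_congr rfl fun i _ => ?_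
      rw [map_pow, map_X]
  -- constants
  have hcst : ∀ x : ℚ, ψ (ι (C x)) = (x : ℂ) := by
    intro x
    rw [hψ]
    have h1 : φ (C x) = algebraMap ℚ ℂ x := (aeval a : MvPolynomial (Fin r) ℚ →ₐ[ℚ] ℂ).commutes x
    rw [h1]
    rfl
  have hb : ∀ s : ℕ, (b.map (algebraMap ℚ ℂ)).eval (s : ℂ) = ψ (ι (C (b.eval (s : ℚ)))) := by
    intro s
    rw [hcst]
    have h1 : ((s : ℚ) : ℂ) = (s : ℂ) := by norm_cast
    have h2 := Polynomial.eval_map_apply (algebraMap ℚ ℂ) (p := b) (s : ℚ)
    have h3 : (algebraMap ℚ ℂ) (s : ℚ) = (s : ℂ) := h1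
    rw [h3] at h2
    rw [h2]
    rfl
  -- the equation over `K`
  have hK : ∀ (s : ℕ) (e : Fin N →₀ ℕ),
      ι (C (b.eval (s : ℚ))) * coeff e (pm π A0 * map ι (gen v ^ s)) =
        ∑ m ∈ P.support, ι (C ((s : ℚ) ^ m)) * ∑ δ ∈ D, if ∀ i, 0 ≤ (e i : ℤ) + δ i then
          eval (fun i => ι (C ((((e i : ℤ) + δ i : ℤ)) : ℚ))) (pm π (Q0 (P m) δ)) *
          (ι (C (∏ i, ((((e i : ℤ) + δ i).toNat.descFactorial (δ i).toNat : ℕ) : ℚ))) *
          ι (coeff (ed e δ) (gen v ^ (s + 1)))) else 0 := by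
    intro s e
    have h1 := congrArg (coeff e) (hfe s)
    rw [mul_assoc, coeff_C_mul, hb, hsp s, Finsupp.sum, coeff_sum] at h1
    have h2 := congrArg π h1
    rw [hπ, coeff_mul_pm ψ π hπ, map_sum] at h2
    rw [h2]
    refine Finset.sum_congr rfl fun m hm => ?_
    rw [coeff_smul, smul_eq_mul, coeff_act _ (Q0 (P m)) (hQ (P m)) D (hD' m hm)]
    have h3 : (s : ℂ) ^ m = ψ (ι (C ((s : ℚ) ^ m))) := by
      rw [hcst]; push_cast; rfl
    rw [h3, hπ, map_sum]
    congr 1
    refine Finset.sum_congr rfl fun δ _ => ?_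
    split_ifs
    · rw [hsp (s + 1), coeff_map, coeff_map, eval_pm ψ π hπ]
      have h4 : (∏ i, ((((e i : ℤ) + δ i).toNat.descFactorial (δ i).toNat : ℕ) : ℂ)) =
          ψ (ι (C (∏ i, ((((e i : ℤ) + δ i).toNat.descFactorial (δ i).toNat : ℕ) : ℚ)))) := by
        rw [hcst]; push_cast; rfl
      have h5 : (fun i => ψ (ι (C ((((e i : ℤ) + δ i : ℤ)) : ℚ)))) =
          fun i => ((((e i : ℤ) + δ i : ℤ)) : ℂ) := by
        funext i
        rw [hcst]; push_cast; rfl
      rw [h4, h5, ← map_mul ψ, mul_comm, hπ, mul_comm]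
    · exact map_zero π
  -- denominators
  obtain ⟨d, q, hd, hq⟩ := clear_den (R := MvPolynomial (Fin r) ℚ) (K := K)
    (insert none ((P.support ×ˢ D).image some))
    (fun o : Option (ℕ × (Fin N → ℤ)) => match o with
      | none => pm π A0
      | some x => pm π (Q0 (P x.1) x.2))
  have hqA : map ι (q none) = C (ι d) * pm π A0 := hq none (Finset.mem_insert_self _ _)
  have hqQ : ∀ m ∈ P.support, ∀ δ ∈ D, map ι (q (some (m, δ))) =
      C (ι d) * pm π (Q0 (P m) δ) := fun m hm δ hδ =>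
    hq (some (m, δ)) (Finset.mem_insert_of_mem (Finset.mem_image_of_mem _
      (Finset.mem_product.2 ⟨hm, hδ⟩)))
  have hcA : ∀ γ, ι (coeff γ (q none)) = ι d * π (coeff γ A0) := by
    intro γ
    have h1 := congrArg (coeff γ) hqA
    rwa [coeff_map, coeff_C_mul, coeff_pm] at h1
  refine ⟨q none, D, P.support, fun m δ => q (some (m, δ)), ?_, ?_, ?_⟩
  · intro h0
    have h1 := hcA 0
    have h2 : coeff 0 A0 = 1 := by
      rw [← constantCoeff_eq]; exact hA0
    rw [h0, map_zero, h2, hπ1, mul_one] at h1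
    exact hd (hι (by rw [← h1, map_zero]))
  · intro hloc γ hγ
    have h1 := hcA γ
    have h2 : coeff γ A0 = 0 := by
      rw [hA1 hloc, coeff_one, if_neg (Ne.symm hγ)]
    rw [h2, map_zero, mul_zero] at h1
    exact hι (by rw [h1, map_zero])
  · intro s e
    apply hι
    have hl : ι (C (b.eval (s : ℚ)) * coeff e (q none * gen v ^ s)) =
        ι d * (ι (C (b.eval (s : ℚ))) * coeff e (pm π A0 * map ι (gen v ^ s))) := by
      rw [map_mul, ← coeff_map ι, map_mul (map ι), hqA, mul_assoc, coeff_C_mul]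
      ring
    rw [hl, hK s e, map_sum, Finset.mul_sum]
    refine Finset.sum_congr rfl fun m hm => ?_
    rw [map_mul, map_sum, mul_left_comm, Finset.mul_sum]
    congr 1
    refine Finset.sum_congr rfl fun δ hδ => ?_
    split_ifs
    · have h1 : eval (fun i => ι (C ((((e i : ℤ) + δ i : ℤ)) : ℚ))) (map ι (q (some (m, δ)))) =
          ι (eval (fun i => C ((((e i : ℤ) + δ i : ℤ)) : ℚ)) (q (some (m, δ)))) := by
        rw [eval_map]
        exact (eval₂_comp ι _ _).symm
      rw [hqQ m hm δ hδ, map_mul, eval_C] at h1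
      rw [map_mul, map_mul, ← h1]
      show _ = _ * ι (coeff (ed e δ) (gen v ^ (s + 1)))
      ring
    · rw [mul_zero, map_zero]

end Pool.Agent.W372.SG
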