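import Pool.Agent.W907.SG.Stmts

/-!
# SG, task FIN: from small mod 3 Betti numbers along towers to the vanishing of l2 homology
-/

set_option autoImplicit false

namespace Pool.Agent.W372.SG
open Module Pool.Agent.W907.SG

namespace FIN

variable {V : Type} [Fintype V] [LinearOrder V]

/-- equations -/
abbrev TT (V : Type) : Type := Finset V ⊕ ((Finset V × V) ⊕ (Finset V ⊕ Finset V))

/-- evaluation of integral combinations -/
noncomputable def evh (c : Option V → Finset V → ℝ) : (Option V × Finset V → ℤ) →+ ℝ where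
  toFun f := ∑ p, (f p : ℝ) * c p.1 p.2
  map_zero' := by simp
  map_add' f g := by
    simp only [Pi.add_apply, Int.cast_add, add_mul, Finset.sum_add_distrib]

/-- basis -/
def un (p : Option V × Finset V) : Option V × Finset V → ℤ := fun q => if q = p then 1 else 0

theorem evh_un (c : Option V → Finset V → ℝ) (p : Option V × Finset V) :
    evh c (un p) = c p.1 p.2 := by
  show ∑ q, ((un p q : ℤ) : ℝ) * c q.1 q.2 = _
  rw [Finset.sum_eq_single p]
  · simp [un]
  · intro q _ h
    simp [un, h]
  · intro h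
    exact absurd (Finset.mem_univ _) h

open Classical in
/-- coefficients of the equations -/
noncomputable def bb (G : SimpleGraph V) (i : ℕ) : TT V → (Option V × Finset V → ℤ)
  | Sum.inl T => if ¬ (G.IsClique (T : Set V) ∧ T.card = i) then un (none, T) else 0
  | Sum.inr (Sum.inl p) => if p.2 ∈ p.1 then un (none, p.1) + un (some p.2, p.1) else 0
  | Sum.inr (Sum.inr (Sum.inl T)) => ∑ v ∈ Tᶜ, sg v T • un (none, insert v T)
  | Sum.inr (Sum.inr (Sum.inr T)) => if G.IsClique (T : Set V) then
      ∑ t ∈ T, sg t (T.erase t) • (un (none, T.erase t) - un (some t, T.erase t)) else 0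

theorem ee_eq (G : SimpleGraph V) (i : ℕ) (c : Option V → Finset V → ℝ) (τ' : TT V) :
    ∑ j, ∑ τ, (bb G i τ' (j, τ) : ℝ) * c j τ = evh c (bb G i τ') := by
  show _ = ∑ p : Option V × Finset V, ((bb G i τ' p : ℤ) : ℝ) * c p.1 p.2
  rw [Fintype.sum_prod_type]

/-- the equations -/
theorem eqs (G : SimpleGraph V) (i : ℕ) (c : Option V → Finset V → ℝ) :
    (∀ τ', evh c (bb G i τ') = 0) ↔
      ((∀ T : Finset V, ¬ (G.IsClique (T : Set V) ∧ T.card = i) → c none T = 0) ∧
      (∀ (T : Finset V) t, t ∈ T → c (some t) T = - c none T) ∧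
      (∀ T : Finset V, ∑ v ∈ Tᶜ, (sg v T : ℝ) * c none (insert v T) = 0) ∧
      (∀ T : Finset V, G.IsClique (T : Set V) →
        ∑ t ∈ T, (sg t (T.erase t) : ℝ) * (c none (T.erase t) - c (some t) (T.erase t)) = 0)) := by
  have e1 : ∀ T : Finset V, ¬ (G.IsClique (T : Set V) ∧ T.card = i) →
      evh c (bb G i (Sum.inl T)) = c none T := by
    intro T hT
    simp only [bb]
    rw [if_pos hT, evh_un]
  have e1' : ∀ T : Finset V, (G.IsClique (T : Set V) ∧ T.card = i) →
      evh c (bb G i (Sum.inl T)) = 0 := by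
    intro T hT
    simp only [bb]
    rw [if_neg (not_not.2 hT), map_zero]
  have e2 : ∀ (T : Finset V) (t : V), t ∈ T →
      evh c (bb G i (Sum.inr (Sum.inl (T, t)))) = c none T + c (some t) T := by
    intro T t ht
    simp only [bb]
    rw [if_pos ht, map_add, evh_un, evh_un]
  have e2' : ∀ (T : Finset V) (t : V), t ∉ T →
      evh c (bb G i (Sum.inr (Sum.inl (T, t)))) = 0 := by
    intro T t ht
    simp only [bb]
    rw [if_neg ht, map_zero]
  have e3 : ∀ T : Finset V, evh c (bb G i (Sum.inr (Sum.inr (Sum.inl T)))) =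
      ∑ v ∈ Tᶜ, (sg v T : ℝ) * c none (insert v T) := by
    intro T
    simp only [bb]
    rw [map_sum]
    refine Finset.sum_congr rfl fun v _ => ?_
    rw [map_zsmul, evh_un, zsmul_eq_mul]
  have e4 : ∀ T : Finset V, G.IsClique (T : Set V) →
      evh c (bb G i (Sum.inr (Sum.inr (Sum.inr T)))) =
      ∑ t ∈ T, (sg t (T.erase t) : ℝ) * (c none (T.erase t) - c (some t) (T.erase t)) := by
    intro T hT
    simp only [bb]
    rw [if_pos hT, map_sum]
    refine Finset.sum_congr rfl fun v _ => ?_
    rw [map_zsmul, map_sub, evh_un, evh_un, zsmul_eq_mul]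
  have e4' : ∀ T : Finset V, ¬ G.IsClique (T : Set V) →
      evh c (bb G i (Sum.inr (Sum.inr (Sum.inr T)))) = 0 := by
    intro T hT
    simp only [bb]
    rw [if_neg hT, map_zero]
  constructor
  · intro h
    refine ⟨fun T hT => ?_, fun T t ht => ?_, fun T => ?_, fun T hT => ?_⟩
    · rw [← e1 T hT]
      exact h _
    · have := h (Sum.inr (Sum.inl (T, t)))
      rw [e2 T t ht] at this
      linarith
    · rw [← e3]
      exact h _
    · rw [← e4 T hT]
      exact h _
  · rintro ⟨h1, h2, h3, h4⟩ (T | ⟨T, t⟩ | T | T)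
    · by_cases hT : G.IsClique (T : Set V) ∧ T.card = i
      · exact e1' T hT
      · rw [e1 T hT]
        exact h1 T hT
    · by_cases ht : t ∈ T
      · rw [e2 T t ht, h2 T t ht]
        ring
      · exact e2' T t ht
    · rw [e3]
      exact h3 T
    · by_cases hT : G.IsClique (T : Set V)
      · rw [e4 T hT]
        exact h4 T hT
      · exact e4' T hT

/-- the generators and 1 -/
noncomputable def gam (G : SimpleGraph V) : Option V → W G
  | none => 1
  | some v => (cox G).simple v

/-- the action of the Coxeter group -/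
theorem exists_act (G : SimpleGraph V) (X : Type) (a : V → X → X)
    (hinv : ∀ v x, a v (a v x) = x) (hcomm : ∀ u v, G.Adj u v → ∀ x, a u (a v x) = a v (a u x)) :
    ∃ act : X → W G → X, (∀ x, act x 1 = x) ∧ (∀ x g h, act x (g * h) = act (act x g) h) ∧
      ∀ x v, act x ((cox G).simple v) = a v x := by
  classical
  let f : V → Equiv.Perm X := fun v => ⟨a v, a v, hinv v, hinv v⟩
  have hf : ∀ v x, f v x = a v x := fun _ _ => rfl
  have hlift : (cox G).IsLiftable f := by
    intro u v
    have hM : (cox G) u v = if u = v then 1 else if G.Adj u v then 2 else 0 := by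
      show (cox G).M u v = _
      simp only [cox, Matrix.of_apply]
      split_ifs <;> rfl
    rw [hM]
    by_cases huv : u = v
    · rw [if_pos huv, pow_one, huv]
      ext x
      rw [Equiv.Perm.mul_apply, hf, hf, hinv]
      rfl
    · rw [if_neg huv]
      by_cases hadj : G.Adj u v
      · rw [if_pos hadj, pow_two]
        ext x
        simp only [Equiv.Perm.mul_apply, hf]
        rw [hcomm u v hadj (a u (a v x)), hinv, hinv]
        rfl
      · rw [if_neg hadj, pow_zero]
  obtain ⟨φ, hφ⟩ : ∃ φ : W G →* Equiv.Perm X, ∀ v, φ ((cox G).simple v) = f v := by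
    refine ⟨(cox G).toCoxeterSystem.lift ⟨f, hlift⟩, fun v => ?_⟩
    exact (cox G).toCoxeterSystem.lift_apply_simple hlift v
  refine ⟨fun x w => φ w⁻¹ x, fun x => ?_, fun x g h => ?_, fun x v => ?_⟩
  · show φ 1⁻¹ x = x
    rw [inv_one, map_one]
    rfl
  · show φ (g * h)⁻¹ x = φ h⁻¹ (φ g⁻¹ x)
    rw [mul_inv_rev, map_mul]
    rfl
  · show φ ((cox G).simple v)⁻¹ x = a v x
    have h1 : ((cox G).simple v)⁻¹ = (cox G).simple v := (cox G).toCoxeterSystem.inv_simple v
    rw [h1, hφ]
    exact hf v x

end FIN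

open FIN in
theorem t_FIN (hL : S_LUECK) (hN : S_NIL) (hH : S_HODGE) (hM : S_ML) : S_FIN := by
  classical
  intro V _ _ G i hSP c hc
  refine hL (W G) (Finset V) (TT V) (Option V) (gam G) (fun j τ' τ => bb G i τ' (j, τ)) ?_ c
    hc.summable ?_
  · intro N E hE
    obtain ⟨X, _, _, P, hP⟩ := hSP inferInstance inferInstance N
    obtain ⟨Y, _, _, Q, ev, hev1, hev2, hev3, hevE⟩ := hN V G E hE
    obtain ⟨act, ha1, ha2, ha3⟩ := exists_act G X P.a P.inv P.comm
    obtain ⟨av, hav⟩ : ∃ av : V → X × Y → X × Y, av = fun v z => (P.a v z.1, Q.a v z.2) := ⟨_, rfl⟩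
    obtain ⟨A, hA⟩ : ∃ A : X × Y → W G → X × Y, A = fun z w => (act z.1 w, ev z.2 w) := ⟨_, rfl⟩
    have hAs : ∀ z v, A z ((cox G).simple v) = av v z := by
      intro z v
      rw [hA, hav]
      show (act z.1 _, ev z.2 _) = _
      rw [ha3, hev3]
    have hA1 : ∀ z, A z 1 = z := by
      intro z
      rw [hA]
      show (act z.1 1, ev z.2 1) = z
      rw [ha1, hev1]
    let K : Submodule ℝ (X × Y → Finset V → ℝ) :=
      { carrier := {c | ∀ x τ', ∑ j, ∑ τ, (bb G i τ' (j, τ) : ℝ) * c (A x (gam G j)) τ = 0}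
        add_mem' := by
          intro f g hf hg x τ'
          have h1 := hf x τ'
          have h2 := hg x τ'
          simp only [Pi.add_apply, mul_add, Finset.sum_add_distrib]
          rw [h1, h2, add_zero]
        zero_mem' := by
          intro x τ'
          simp
        smul_mem' := by
          intro r f hf x τ'
          have h1 := hf x τ'
          simp only [Pi.smul_apply, smul_eq_mul]
          have h2 : ∀ j : Option V, ∀ τ : Finset V,
              (bb G i τ' (j, τ) : ℝ) * (r * f (A x (gam G j)) τ) =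
              r * ((bb G i τ' (j, τ) : ℝ) * f (A x (gam G j)) τ) := fun j τ => by ring
          simp only [h2, ← Finset.mul_sum]
          rw [h1, mul_zero] }
    have hK : ∀ c, c ∈ K ↔ ∀ x τ', ∑ j, ∑ τ, (bb G i τ' (j, τ) : ℝ) * c (A x (gam G j)) τ = 0 :=
      fun c => Iff.rfl
    refine ⟨X × Y, inferInstance, inferInstance, A, hA1, ?_, ?_, K, hK, ?_⟩
    · intro z g h
      rw [hA]
      show (act z.1 (g * h), ev z.2 (g * h)) = (act (act z.1 g) h, ev (ev z.2 g) h)
      rw [ha2, hev2]
    · intro g hg z h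
      rw [hA] at h
      exact hevE g hg z.2 (congrArg Prod.snd h)
    · have hfr : finrank ℝ K ≤ beta G (pull (ZMod 3) av) Set.univ ∅ i := by
        refine hH V (X × Y) G av (fun v z => P.sgn v z.1) ?_ ?_ ?_ ?_ i K ?_
        · intro v z
          rw [hav]
          show (P.a v (P.a v z.1), Q.a v (Q.a v z.2)) = z
          rw [P.inv, Q.inv]
        · intro u v huv z
          rw [hav]
          show (P.a u (P.a v z.1), Q.a u (Q.a v z.2)) = (P.a v (P.a u z.1), Q.a v (Q.a u z.2))
          rw [P.comm u v huv, Q.comm u v huv]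
        · intro v z
          rw [hav]
          exact P.sgn_self v z.1
        · intro u v huv z
          rw [hav]
          exact P.sgn_other u v huv z.1
        · intro c hc
          rw [hK] at hc
          have h1 : ∀ x, _ := fun x => (eqs G i (fun j τ => c (A x (gam G j)) τ)).1 fun τ' => by
            rw [← ee_eq]
            exact hc x τ'
          have hn : ∀ x, A x (gam G none) = x := fun x => hA1 x
          have hs : ∀ x v, A x (gam G (some v)) = av v x := fun x v => hAs x v
          simp only [hn, hs] at h1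
          exact ⟨fun x => (h1 x).1, fun x => (h1 x).2.1, fun x => (h1 x).2.2.1,
            fun x => (h1 x).2.2.2⟩
      have hml : beta G (pull (ZMod 3) av) Set.univ ∅ i ≤
          Fintype.card Y * beta G (pull (ZMod 3) P.a) Set.univ ∅ i := by
        rw [hav]
        exact hM V X Y G P.a P.sgn Q.a P.inv P.comm P.sgn_self P.sgn_other Q.inv Q.comm Q.ptype i
      rw [Fintype.card_prod]
      calc N * finrank ℝ K ≤ N * (Fintype.card Y * beta G (pull (ZMod 3) P.a) Set.univ ∅ i) :=
            Nat.mul_le_mul_left _ (hfr.trans hml)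
        _ = (N * beta G (pull (ZMod 3) P.a) Set.univ ∅ i) * Fintype.card Y := by ring
        _ ≤ Fintype.card X * Fintype.card Y := Nat.mul_le_mul_right _ hP
  · intro g τ'
    rw [ee_eq G i (fun j τ => c (g * gam G j) τ) τ']
    refine (eqs G i (fun j τ => c (g * gam G j) τ)).2 ?_ τ'
    have hn : g * gam G none = g := mul_one g
    simp only [hn]
    exact ⟨hc.supp g, hc.anti g, hc.cycle g, hc.cocycle g⟩

end Pool.Agent.W372.SG
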